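import Pool.Agent.Helper82.UV.Core
import Pool.Agent.Helper69.UW.Defs
import Pool.Agent.Helper24.UG.Win
import Pool.Agent.Helper24.UG.Mass

/-!
# UW-Q1: few zeros in a window, and an ordinate not too far to its left

The count averaged over the window uses the kernel of scale `m`, the ordinate to the left the kernels of the scales `c`, `2c`.
-/

set_option autoImplicit false
open MeasureTheory Set Filter Topology
open Pool.Agent.Helper57.Zeta Pool.Agent.Helper57.LH Pool.Agent.Helper57.ED Pool.Agent.Helper54.LG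
open Pool.Agent.Helper93.UG (zc)
open Pool.Agent.Helper69.UG (NX XX NR WW)
open Pool.Agent.Helper69.UV (ww HH)
open Pool.Agent.Helper69.UW

namespace Pool.Agent.Helper82.UW

theorem few_core2 {w : ℝ → ℝ} {X Y h T c D D' Cs K V : ℝ} (hX : 16 ≤ X) (hY : 16 ≤ Y) (hh : 0 < h)
    (hhT : h + 8 / Y ≤ √T / 2) (hT : 16 ≤ T) (hc1 : 1 ≤ c) (hcT : 16 * c ≤ Real.log T)
    (hwc : Continuous w) (hwi : Integrable w) (hw0 : ∀ t, 0 ≤ w t) (hV : 1 ≤ V) (hm : |(∫ t, w t) - V| ≤ V / T)
    (hCs : 0 ≤ Cs) (hK : 0 ≤ K)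
    (hD1 : ∀ u, |u| ≤ √T → Integrable (fun t => w t * |NX Y (t + u) - c + SS Y (t + u)|) ∧
      ∫ t, w t * |NX Y (t + u) - c + SS Y (t + u)| ≤ K * V)
    (hD2 : ∀ u, |u| ≤ √T → Integrable (fun t => w t * |NX (Y / 2) (t + u) - 2 * c + SS (Y / 2) (t + u)|) ∧
      ∫ t, w t * |NX (Y / 2) (t + u) - 2 * c + SS (Y / 2) (t + u)| ≤ K * V)
    (hs1 : ∀ u, ∫ t, w t * SS Y (t + u) ^ 2 ≤ Cs * c * V) (hs2 : ∀ u, ∫ t, w t * SS (Y / 2) (t + u) ^ 2 ≤ Cs * c * V)
    (hJi : Integrable (fun t => w t * (X / (2 * Real.pi) * ∫ u in (-h)..h, NX X (t + u))))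
    (hJ1 : ∫ t, w t * (X / (2 * Real.pi) * ∫ u in (-h)..h, NX X (t + u)) ≤ (c + 1 - D + K) * V)
    (hwin : ∀ t : ℝ, Integrable (fun s => X / (2 * Real.pi) * qk 0 (X * s) * (zc (Ico (t + s - h) (t + s + h)) : ℝ)) ∧
      ∫ s, X / (2 * Real.pi) * qk 0 (X * s) * (zc (Ico (t + s - h) (t + s + h)) : ℝ) =
        X / (2 * Real.pi) * ∫ w in (-h)..h, NX X (t + w))
    (hzm : Measurable (fun t => (zc (Ico (t - h) (t + h)) : ℝ))) (hqk : UG.QkMass)
    (hD'0 : 0 ≤ D') (hDc : D < c) (hM : 8 + 4 * (146 * Cs + 12 * K) ≤ D - D') :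
    ∃ s : ℝ, |s| ≤ √T ∧ V / c ≤ ∫ t in {t : ℝ | t + s ∈ {t : ℝ | (zc (Ico (t - h) (t + h)) : ℝ) ≤ c - D' ∧
          ∃ ρ : ZS, t - h - 16 / Y ≤ (ρ : ℂ).im ∧ (ρ : ℂ).im < t - h}}, w t := by
  have hc0 : 0 < c := by linarith
  have hT0 : 0 < T := by linarith
  have hpi := Real.pi_pos
  have hX0 : 0 < X := by linarith
  have hY0 : 0 < Y := by linarith
  have hsT : 4 ≤ √T := Real.le_sqrt_of_sq_le (by linarith)
  have hlogT : Real.log T ≤ 2 * √T := by
    have h1 := Real.log_le_sub_one_of_pos (show 0 < √T by linarith)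
    rw [Real.log_sqrt hT0.le] at h1
    linarith
  have hcT' : c ≤ T := by
    have h1 := Real.log_le_sub_one_of_pos hT0
    linarith
  have hV0 : 0 < V := by linarith
  set m := ∫ t, w t with hmdef
  obtain ⟨hm1, hm2⟩ := abs_le.mp hm
  have hcVT : c * (V / T) ≤ V := by
    rw [mul_div_assoc', div_le_iff₀ hT0, mul_comm]
    exact mul_le_mul_of_nonneg_left hcT' hV0.le
  have h8Y : 0 < 8 / Y := by positivity
  set J := ∫ t, w t * (X / (2 * Real.pi) * ∫ u in (-h)..h, NX X (t + u)) with hJdef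
  obtain ⟨hki, hk1, hkt⟩ := hqk hX0
  set k : ℝ → ℝ := fun s => X / (2 * Real.pi) * qk 0 (X * s) with hk
  have hkc : Continuous k := continuous_const.mul ((qk_cont 0).comp (by fun_prop))
  have hk0 : ∀ s, 0 ≤ k s := fun s => mul_nonneg (by positivity) (qk_zero_nonneg _)
  set z : ℝ → ℝ := fun t => (zc (Ico (t - h) (t + h)) : ℝ) with hz
  have hz0 : ∀ t, 0 ≤ z t := fun t => Nat.cast_nonneg _
  have hton := UV.tonelli (A := fun t => X / (2 * Real.pi) * ∫ u in (-h)..h, NX X (t + u)) hwc hw0 hzm hz0 hkc hk0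
    (fun t => hwin t) hJi
  rw [← hJdef] at hton
  set Dm := (D + D') / 2 with hDm
  have hA : 0 ≤ 146 * Cs + 12 * K := by positivity
  have hcm : 0 < c - Dm := by linarith
  have hcm2 : c - Dm ≤ 2 * c := by linarith
  set ε := 3 / (X * (√T / 2)) with hε
  have hε0 : 0 ≤ ε := by positivity
  have hX2 : 16 * (√T / 2) ≤ X * (√T / 2) := mul_le_mul_of_nonneg_right hX (by linarith)
  have hεc : ε * (2 * c) ≤ 1 := by
    rw [hε, div_mul_eq_mul_div, div_le_one (by positivity)]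
    linarith
  have hε1 : ε ≤ 1 / 2 := by
    rw [hε, div_le_div_iff₀ (by positivity) (by norm_num)]
    linarith
  have hQ0 : 0 < (c - Dm) * V := by positivity
  obtain ⟨s, hsB, hE⟩ := UG.exists_low (B := √T / 2) (ε := ε) (Q := (c - Dm) * V) hkc hk0 hki hk1
    (hkt (√T / 2) (by positivity)) hton hQ0.le (by
      have h1 : ε * (c - Dm) ≤ 1 := le_trans (mul_le_mul_of_nonneg_left hcm2 hε0) hεc
      have h2 : (c - Dm - 1) * V ≤ (c - Dm) * V * (1 - ε) := by
        have : (c - Dm) * V * (1 - ε) = (c - Dm - ε * (c - Dm)) * V := by ring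
        rw [this]
        apply mul_le_mul_of_nonneg_right _ hV0.le
        linarith
      refine lt_of_lt_of_le (lt_of_le_of_lt hJ1 ?_) h2
      apply mul_lt_mul_of_pos_right _ hV0
      linarith) (by
      apply mul_pos hQ0
      linarith)
  refine ⟨s, hsB.trans (by linarith), ?_⟩
  set y := c - D' with hy
  have hyc : y ≤ 2 * c := by linarith
  have hy0 : 0 ≤ y := by linarith
  have h1 := UG.low_set (y := y) hwi hw0 hzm hy0 hQ0.le hE.le
  set S : Set ℝ := {t : ℝ | z (t + s) ≤ y} with hS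
  have hSm : MeasurableSet S := measurableSet_le (hzm.comp (by fun_prop)) measurable_const
  set G : Set ℝ := {t : ℝ | ∃ ρ : ZS, t + s - h - 16 / Y ≤ (ρ : ℂ).im ∧ (ρ : ℂ).im < t + s - h} with hG
  have hGm : MeasurableSet G := by
    have e : G = ⋃ ρ : ZS, {t : ℝ | t + s - h - 16 / Y ≤ (ρ : ℂ).im ∧ (ρ : ℂ).im < t + s - h} := by
      ext t
      simp only [hG, mem_ofPred_eq, mem_iUnion]
    rw [e]
    apply MeasurableSet.iUnion
    intro ρ
    have h5 : Measurable fun t : ℝ => t + s - h - 16 / Y := by fun_prop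
    have h6 : Measurable fun t : ℝ => t + s - h := by fun_prop
    exact (measurableSet_le h5 measurable_const).inter (measurableSet_lt measurable_const h6)
  have hgoal : ∫ t in {t : ℝ | t + s ∈ {t : ℝ | (zc (Ico (t - h) (t + h)) : ℝ) ≤ c - D' ∧
          ∃ ρ : ZS, t - h - 16 / Y ≤ (ρ : ℂ).im ∧ (ρ : ℂ).im < t - h}}, w t = ∫ t in S ∩ G, w t := rfl
  rw [hgoal]
  have hsplit := integral_inter_add_sdiff hGm hwi.integrableOn (s := S)
  -- the bad set
  set u := s - h - 8 / Y with hu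
  have huT : |u| ≤ √T := by
    rw [abs_le] at hsB ⊢
    constructor <;> rw [hu] <;> linarith
  have hd1' := hD1 u huT
  have hd2' := hD2 u huT
  have hSi : ∀ Z : ℝ, Integrable fun t => w t * SS Z (t + u) ^ 2 := by
    intro Z
    obtain ⟨B, hB⟩ := UG.SS_bdd Z
    have hc2 : Continuous fun t => SS Z (t + u) ^ 2 := by
      have := UG.SS_cont Z
      fun_prop
    refine UG.int_bdd hwi (B := B ^ 2) hc2.measurable ?_
    · intro t
      rw [abs_pow]
      exact pow_le_pow_left₀ (abs_nonneg _) (hB _) 2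
  set g : ℝ → ℝ := fun t => 128 / c * (w t * SS Y (t + u) ^ 2) + 18 / c * (w t * SS (Y / 2) (t + u) ^ 2) +
      8 * (w t * |NX Y (t + u) - c + SS Y (t + u)|) +
      3 * (w t * |NX (Y / 2) (t + u) - 2 * c + SS (Y / 2) (t + u)|) with hg
  have i1 : Integrable fun t => 128 / c * (w t * SS Y (t + u) ^ 2) := (hSi Y).const_mul _
  have i2 : Integrable fun t => 18 / c * (w t * SS (Y / 2) (t + u) ^ 2) := (hSi (Y / 2)).const_mul _
  have i3 := hd1'.1.const_mul 8
  have i4 := hd2'.1.const_mul 3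
  have i12 : Integrable fun t => 128 / c * (w t * SS Y (t + u) ^ 2) + 18 / c * (w t * SS (Y / 2) (t + u) ^ 2) := i1.add i2
  have i123 : Integrable fun t => 128 / c * (w t * SS Y (t + u) ^ 2) + 18 / c * (w t * SS (Y / 2) (t + u) ^ 2) +
      8 * (w t * |NX Y (t + u) - c + SS Y (t + u)|) := i12.add i3
  have hgi : Integrable g := i123.add i4
  have hgI : ∫ t, g t ≤ (146 * Cs + 11 * K) * V := by
    have e : ∫ t, g t = 128 / c * (∫ t, w t * SS Y (t + u) ^ 2) + 18 / c * (∫ t, w t * SS (Y / 2) (t + u) ^ 2) +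
        8 * (∫ t, w t * |NX Y (t + u) - c + SS Y (t + u)|) +
        3 * (∫ t, w t * |NX (Y / 2) (t + u) - 2 * c + SS (Y / 2) (t + u)|) := by
      rw [hg, integral_add i123 i4, integral_add i12 i3, integral_add i1 i2, integral_const_mul, integral_const_mul,
        integral_const_mul, integral_const_mul]
    rw [e]
    have e1 : 128 / c * (∫ t, w t * SS Y (t + u) ^ 2) ≤ 128 * Cs * V := by
      calc 128 / c * (∫ t, w t * SS Y (t + u) ^ 2) ≤ 128 / c * (Cs * c * V) := mul_le_mul_of_nonneg_left (hs1 u) (by positivity)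
        _ = 128 * Cs * V := by field_simp
    have e2 : 18 / c * (∫ t, w t * SS (Y / 2) (t + u) ^ 2) ≤ 18 * Cs * V := by
      calc 18 / c * (∫ t, w t * SS (Y / 2) (t + u) ^ 2) ≤ 18 / c * (Cs * c * V) := mul_le_mul_of_nonneg_left (hs2 u) (by positivity)
        _ = 18 * Cs * V := by field_simp
    have e3 := hd1'.2
    have e4 := hd2'.2
    linarith
  have hbad : c * (∫ t in S \ G, w t) ≤ (146 * Cs + 11 * K) * V := by
    refine le_trans ?_ hgI
    rw [← integral_const_mul]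
    refine le_trans (setIntegral_mono_on (hwi.integrableOn.const_mul _) hgi.integrableOn (hSm.diff hGm) fun t ht => ?_)
      (setIntegral_le_integral hgi (Eventually.of_forall fun t => ?_))
    · have h2 : ∀ ρ : ZS, 8 / Y ≤ |(ρ : ℂ).im - (t + u)| := by
        intro ρ
        by_contra hcon
        push Not at hcon
        rw [abs_lt] at hcon
        apply ht.2
        refine ⟨ρ, ?_, ?_⟩
        · have : (16:ℝ) / Y = 8 / Y + 8 / Y := by ring
          rw [this]
          linarith [hcon.1]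
        · linarith [hcon.2]
      have h3 := mul_le_mul_of_nonneg_right (UG.bad_pt hY0 hc0 h2) (hw0 t)
      refine h3.trans (le_of_eq ?_)
      rw [hg]
      ring
    · have h2 := hw0 t
      have : g t = w t * (128 / c * SS Y (t + u) ^ 2 + 18 / c * SS (Y / 2) (t + u) ^ 2 +
        8 * |NX Y (t + u) - c + SS Y (t + u)| +
        3 * |NX (Y / 2) (t + u) - 2 * c + SS (Y / 2) (t + u)|) := by rw [hg]; ring
      rw [Pi.zero_apply, this]
      positivity
  have hSw0 : 0 ≤ ∫ t in S, w t := setIntegral_nonneg hSm fun t _ => hw0 t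
  have h2 : ((Dm - D') - 2) * V ≤ 2 * c * ∫ t in S, w t := by
    have h3 : y * (∫ t in S, w t) ≤ 2 * c * ∫ t in S, w t := mul_le_mul_of_nonneg_right hyc hSw0
    have h4 : y * (V - V / T) ≤ y * m := mul_le_mul_of_nonneg_left (by linarith) hy0
    have h5 : y * (V / T) ≤ 2 * V := by
      have h6 : y * (V / T) ≤ 2 * c * (V / T) := mul_le_mul_of_nonneg_right hyc (by positivity)
      linarith
    have h6 : ((Dm - D') - 2) * V = y * V - 2 * V - (c - Dm) * V := by rw [hy]; ring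
    have h7 : y * (V - V / T) = y * V - y * (V / T) := by ring
    linarith
  rw [div_le_iff₀ hc0]
  have h4 : c * (∫ t in S, w t) = c * (∫ t in S ∩ G, w t) + c * ∫ t in S \ G, w t := by rw [← hsplit]; ring
  have h5 : (2 + 2 * (146 * Cs + 12 * K)) * V ≤ ((Dm - D') - 2) * V :=
    mul_le_mul_of_nonneg_right (by rw [hDm]; linarith) hV0.le
  have h6 : (146 * Cs + 11 * K) * V ≤ (146 * Cs + 12 * K) * V :=
    mul_le_mul_of_nonneg_right (by linarith) hV0.le
  have h7 : (2 + 2 * (146 * Cs + 12 * K)) * V = 2 * V + 2 * ((146 * Cs + 12 * K) * V) := by ring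
  linarith

/-- R2 -/
def RrBd (δ : ℝ) : Prop := ∃ c0 T0 : ℝ, ∀ T c m v : ℝ, T0 ≤ T → Adm c0 T c m → |v| = vv δ c m →
    ∀ n, |rr δ T c m v n| ≤ T ^ (1 / 192 : ℝ) ∧ 1 ≤ VV δ T c m v

/-- R8 -/
def Wmass (δ : ℝ) : Prop := ∃ c0 T0 : ℝ, ∀ T c m v : ℝ, T0 ≤ T → Adm c0 T c m → |v| = vv δ c m →
    ∀ τ : ℝ, Integrable (wt δ T c m v τ) ∧ |(∫ t, wt δ T c m v τ t) - VV δ T c m v| ≤ VV δ T c m v / T

/-- R10 -/
def EWS (δ : ℝ) : Prop := ∃ c0 T0 : ℝ, ∀ T c m v : ℝ, T0 ≤ T → Adm c0 T c m → |v| = vv δ c m →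
    ∀ τ : ℝ, (1 + 10 * δ) * √m * |v| * VV δ T c m v ≤ v * ∫ t, wt δ T c m v τ t * WS T c m t

/-- R11 -/
def VSS (δ : ℝ) : Prop := ∃ C c0 T0 : ℝ, 0 < C ∧ ∀ T c m v : ℝ, T0 ≤ T → Adm c0 T c m →
    |v| = vv δ c m → ∀ M τ u : ℝ, m ≤ M → M ≤ 2 * c →
    ∫ t, wt δ T c m v τ t * SS (XX T M) (t + u) ^ 2 ≤ C * M * VV δ T c m v

/-- K6 -/
def NxDev (δ : ℝ) : Prop := ∃ C c0 T0 : ℝ, 0 < C ∧ ∀ T c m v : ℝ, T0 ≤ T → Adm c0 T c m →
    |v| = vv δ c m →
    ∀ M τ u : ℝ, m ≤ M → M ≤ 2 * c → T ≤ τ → τ ≤ 2 * T → |u| ≤ √T →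
    Integrable (fun t => wt δ T c m v τ t * |NX (XX T M) (t + u) - M + SS (XX T M) (t + u)|) ∧
    ∫ t, wt δ T c m v τ t * |NX (XX T M) (t + u) - M + SS (XX T M) (t + u)| ≤ C * VV δ T c m v

/-- K6e -/
def Wavg (δ : ℝ) : Prop := ∃ C c0 T0 : ℝ, 0 < C ∧ ∀ T c m v : ℝ, T0 ≤ T → Adm c0 T c m →
    |v| = vv δ c m → ∀ τ : ℝ, T ≤ τ → τ ≤ 2 * T →
    Integrable (fun t => wt δ T c m v τ t *
      |XX T m / (2 * Real.pi) * (∫ w in (-(HH T c))..(HH T c), NX (XX T m) (t + w)) - c + WS T c m t|) ∧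
    ∫ t, wt δ T c m v τ t *
      |XX T m / (2 * Real.pi) * (∫ w in (-(HH T c))..(HH T c), NX (XX T m) (t + w)) - c + WS T c m t| ≤
        C * VV δ T c m v

/-- K8, any half length -/
def Windowd : Prop := ∀ {X H : ℝ}, 0 < X → 0 < H → ∀ t : ℝ,
    Integrable (fun s => X / (2 * Real.pi) * qk 0 (X * s) * (zc (Ico (t + s - H) (t + s + H)) : ℝ)) ∧
    ∫ s, X / (2 * Real.pi) * qk 0 (X * s) * (zc (Ico (t + s - H) (t + s + H)) : ℝ) =
      X / (2 * Real.pi) * ∫ w in (-H)..H, NX X (t + w)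

lemma wt_cont {δ T : ℝ} (hT : 0 < T) (c m v τ : ℝ) : Continuous (wt δ T c m v τ) := by
  have hW0 : 0 < WW T := by unfold WW; positivity
  have hpi := Real.pi_pos
  unfold wt
  have h1 : Continuous fun t => PW (WW T) (t - τ) := by
    unfold PW
    apply Continuous.div continuous_const (by fun_prop)
    intro t
    positivity
  have h2 : Continuous (RR δ T c m v) := by
    unfold RR
    refine continuous_finsetSum _ fun n hn => ?_
    have hn0 : (n : ℂ) ≠ 0 := by exact_mod_cast (Nat.pos_iff_ne_zero.mp (Finset.mem_Icc.1 hn).1)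
    exact continuous_const.mul (Continuous.const_cpow (by fun_prop) (Or.inl hn0))
  exact h1.mul (h2.norm.pow 2)

lemma wt_nonneg {δ T : ℝ} (hT : 0 < T) (c m v τ t : ℝ) : 0 ≤ wt δ T c m v τ t := by
  have hW0 : 0 < WW T := by unfold WW; positivity
  unfold wt
  exact mul_nonneg (PW_pos hW0 _).le (by positivity)

/-- the averaged prime sum is integrable against the weight -/
lemma ws_int {T c m : ℝ} {w : ℝ → ℝ} (hwi : Integrable w) (hH : 0 < HH T c) : Integrable (fun t => w t * WS T c m t) := by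
  obtain ⟨B, hB⟩ := UG.SS_bdd (XX T m)
  have hc : Continuous fun t => WS T c m t := by
    unfold WS
    have h1 := UG.SS_cont (XX T m)
    exact continuous_const.mul (intervalIntegral.continuous_parametric_intervalIntegral_of_continuous'
      (by fun_prop) _ _)
  have hB0 : 0 ≤ B := (abs_nonneg _).trans (hB 0)
  refine UG.int_bdd hwi (B := |XX T m / (2 * Real.pi)| * (B * (2 * HH T c))) hc.measurable fun t => ?_
  unfold WS
  rw [abs_mul]
  apply mul_le_mul_of_nonneg_left _ (abs_nonneg _)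
  have h2 := intervalIntegral.norm_integral_le_of_norm_le_const (a := -(HH T c)) (b := HH T c) (C := B)
    (f := fun w => SS (XX T m) (t + w)) (fun x _ => by rw [Real.norm_eq_abs]; exact hB _)
  rw [Real.norm_eq_abs] at h2
  refine h2.trans (le_of_eq ?_)
  rw [abs_of_nonneg (by linarith)]
  ring

theorem few_of {δ : ℝ} (hδ : 0 < δ) (hδ1 : δ ≤ 1 / 32) (h2 : RrBd δ) (h8 : Wmass δ) (h10 : EWS δ) (h11 : VSS δ)
    (h6 : NxDev δ) (h6e : Wavg δ) (hw : Windowd) :
    ∃ c0 T0 : ℝ, ∀ T c m v : ℝ, T0 ≤ T → Adm c0 T c m → |v| = vv δ c m → 0 < v →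
    ∀ τ, T ≤ τ → τ ≤ 2 * T → ∃ s : ℝ, |s| ≤ √T ∧
      VV δ T c m v / c ≤ ∫ t in {t : ℝ | t + s ∈
        {t : ℝ | (zc (Ico (t - HH T c) (t + HH T c)) : ℝ) ≤ c - √m ∧
          ∃ ρ : ZS, t - HH T c - 16 / XX T c ≤ (ρ : ℂ).im ∧ (ρ : ℂ).im < t - HH T c}}, wt δ T c m v τ t := by
  obtain ⟨c1, T1, h10⟩ := h10
  obtain ⟨Cs, c2, T2, hCs, h11⟩ := h11
  obtain ⟨Cn, c3, T3, hCn, h6⟩ := h6
  obtain ⟨c4, T4, h8⟩ := h8
  obtain ⟨c5, T5, h2⟩ := h2
  obtain ⟨Cw, c6, T6, hCw, h6e⟩ := h6e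
  have hl := Real.tendsto_log_atTop
  have hll : Tendsto (fun T : ℝ => Real.log (Real.log T)) atTop atTop := hl.comp hl
  obtain ⟨T7, hT7⟩ := eventually_atTop.mp ((hll.eventually_ge_atTop 1).and ((hl.eventually_ge_atTop 1).and
    (eventually_ge_atTop 16)))
  -- the number to beat
  set K := max Cn Cw with hKdef
  have hK0 : 0 < K := lt_of_lt_of_le hCn (le_max_left _ _)
  set M := 2 + (8 + 4 * (146 * (2 * Cs) + 12 * K)) / (10 * δ) with hM
  have hM2 : 2 ≤ M := by
    have : 0 ≤ (8 + 4 * (146 * (2 * Cs) + 12 * K)) / (10 * δ) := by positivity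
    linarith
  have hδM : 8 + 4 * (146 * (2 * Cs) + 12 * K) ≤ 10 * δ * M := by
    have : 10 * δ * M = 20 * δ + (8 + 4 * (146 * (2 * Cs) + 12 * K)) := by rw [hM]; field_simp; ring
    linarith
  refine ⟨max (M ^ 2) (max 4 (max c1 (max c2 (max c3 (max c4 (max c5 c6)))))),
    max T7 (max T1 (max T2 (max T3 (max T4 (max T5 T6))))), fun T c m v hT hc hv hv0 τ hτ1 hτ2 => ?_⟩
  simp only [max_le_iff] at hT
  obtain ⟨hT7', hT1', hT2', hT3', hT4', hT5', hT6'⟩ := hT
  have a0 : Adm (M ^ 2) T c m := hc.mono (le_max_left _ _)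
  have b0 := hc.mono (le_max_right (M ^ 2) (max 4 (max c1 (max c2 (max c3 (max c4 (max c5 c6)))))))
  have aq : Adm 4 T c m := b0.mono (le_max_left _ _)
  have b1 := b0.mono (le_max_right _ _)
  have a1 : Adm c1 T c m := b1.mono (le_max_left _ _)
  have b2 := b1.mono (le_max_right _ _)
  have a2 : Adm c2 T c m := b2.mono (le_max_left _ _)
  have b3 := b2.mono (le_max_right _ _)
  have a3 : Adm c3 T c m := b3.mono (le_max_left _ _)
  have b4 := b3.mono (le_max_right _ _)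
  have a4 : Adm c4 T c m := b4.mono (le_max_left _ _)
  have b5 := b4.mono (le_max_right _ _)
  have a5 : Adm c5 T c m := b5.mono (le_max_left _ _)
  have a6 : Adm c6 T c m := b5.mono (le_max_right _ _)
  obtain ⟨hLL, hL1, hT16⟩ := hT7 T hT7'
  obtain ⟨hc3', hm1, _, hcm4, hcL0⟩ := aq
  have hmM : M ^ 2 ≤ m := a0.le_m (by positivity)
  have hmc : m ≤ c := a0.m_le_c (one_le_pow₀ (by linarith))
  have hc0 : 0 < c := by linarith
  have hm0 : 0 < m := by linarith
  have hsm : M ≤ √m := Real.le_sqrt_of_sq_le hmM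
  have hsm2 : √m ^ 2 = m := Real.sq_sqrt hm0.le
  have hsm1 : 1 ≤ √m := by linarith
  have hT0 : 0 < T := by linarith
  have hpi := Real.pi_pos
  have hpi4 := Real.pi_lt_four
  have hcL : 64 * c ≤ Real.log T := by
    have : c * 1 ≤ c * Real.log (Real.log T) := mul_le_mul_of_nonneg_left hLL hc0.le
    linarith
  have hXc : 16 ≤ XX T c := by
    unfold XX
    rw [le_div_iff₀ hc0]
    linarith
  have hXm : 16 ≤ XX T m := by
    unfold XX
    rw [le_div_iff₀ hm0]
    linarith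
  have hX2 : XX T (2 * c) = XX T c / 2 := by
    unfold XX
    field_simp
  have hH0 : 0 < HH T c := by unfold HH; positivity
  have hH1 : HH T c ≤ 1 := by
    unfold HH
    rw [div_le_one (by linarith)]
    nlinarith
  have hsT : 4 ≤ √T := Real.le_sqrt_of_sq_le (by linarith)
  have hV1 := (h2 T c m v hT5' a5 hv 0).2
  obtain ⟨hwi, hm⟩ := h8 T c m v hT4' a4 hv τ
  have hwc := wt_cont (δ := δ) hT0 c m v τ
  have hw0 := wt_nonneg (δ := δ) hT0 c m v τ
  set V := VV δ T c m v with hVdef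
  have hV0 : 0 < V := by linarith
  have hKV1 : Cn * V ≤ K * V := mul_le_mul_of_nonneg_right (le_max_left _ _) hV0.le
  have hKV2 : Cw * V ≤ K * V := mul_le_mul_of_nonneg_right (le_max_right _ _) hV0.le
  obtain ⟨BS, hBS⟩ := UG.SS_bdd (XX T m)
  -- integrability of the averaged count
  have hJi : Integrable (fun t => wt δ T c m v τ t *
      (XX T m / (2 * Real.pi) * ∫ u in (-(HH T c))..(HH T c), NX (XX T m) (t + u))) :=
    (UV.mean_avg (a := XX T m / (2 * Real.pi)) (b := m) (K := Cn * V) (by positivity) hwc hwi hw0 (UG.NX_meas _)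
      (UG.SS_cont _) hBS hH0
      (fun u hu => h6 T c m v hT3' a3 hv m τ u le_rfl (by linarith) hτ1 hτ2 (hu.trans (by linarith)))).1
  obtain ⟨hEi, hE⟩ := h6e T c m v hT6' a6 hv τ hτ1 hτ2
  have hWi : Integrable (fun t => wt δ T c m v τ t * WS T c m t) := ws_int hwi hH0
  have hJ1 : ∫ t, wt δ T c m v τ t * (XX T m / (2 * Real.pi) * ∫ u in (-(HH T c))..(HH T c), NX (XX T m) (t + u)) ≤
      (c + 1 - (1 + 10 * δ) * √m + K) * V := by
    have e1 : ∫ t, wt δ T c m v τ t * (XX T m / (2 * Real.pi) * ∫ u in (-(HH T c))..(HH T c), NX (XX T m) (t + u)) ≤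
        ∫ t, (wt δ T c m v τ t * |XX T m / (2 * Real.pi) * (∫ w in (-(HH T c))..(HH T c), NX (XX T m) (t + w)) - c +
          WS T c m t| + c * wt δ T c m v τ t - wt δ T c m v τ t * WS T c m t) := by
      refine integral_mono hJi ((hEi.add (hwi.const_mul c)).sub hWi) fun t => ?_
      have h3 := mul_le_mul_of_nonneg_left (le_abs_self (XX T m / (2 * Real.pi) *
        (∫ w in (-(HH T c))..(HH T c), NX (XX T m) (t + w)) - c + WS T c m t)) (hw0 t)
      simp only
      have h4 : wt δ T c m v τ t * (XX T m / (2 * Real.pi) *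
        (∫ w in (-(HH T c))..(HH T c), NX (XX T m) (t + w)) - c + WS T c m t) =
        wt δ T c m v τ t * (XX T m / (2 * Real.pi) * (∫ w in (-(HH T c))..(HH T c), NX (XX T m) (t + w))) -
        c * wt δ T c m v τ t + wt δ T c m v τ t * WS T c m t := by ring
      linarith
    have e2 : ∫ t, (wt δ T c m v τ t * |XX T m / (2 * Real.pi) * (∫ w in (-(HH T c))..(HH T c), NX (XX T m) (t + w)) - c +
          WS T c m t| + c * wt δ T c m v τ t - wt δ T c m v τ t * WS T c m t) =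
        (∫ t, wt δ T c m v τ t * |XX T m / (2 * Real.pi) * (∫ w in (-(HH T c))..(HH T c), NX (XX T m) (t + w)) - c +
          WS T c m t|) + c * (∫ t, wt δ T c m v τ t) - ∫ t, wt δ T c m v τ t * WS T c m t := by
      have i1 : Integrable fun t => wt δ T c m v τ t *
        |XX T m / (2 * Real.pi) * (∫ w in (-(HH T c))..(HH T c), NX (XX T m) (t + w)) - c + WS T c m t| +
        c * wt δ T c m v τ t := hEi.add (hwi.const_mul c)
      rw [integral_sub i1 hWi, integral_add hEi (hwi.const_mul c), integral_const_mul]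
    have e3 : (1 + 10 * δ) * √m * V ≤ ∫ t, wt δ T c m v τ t * WS T c m t := by
      have h3 := h10 T c m v hT1' a1 hv τ
      rw [abs_of_pos hv0] at h3
      have h4 : v * ((1 + 10 * δ) * √m * V) ≤ v * ∫ t, wt δ T c m v τ t * WS T c m t := by
        calc v * ((1 + 10 * δ) * √m * V) = (1 + 10 * δ) * √m * v * VV δ T c m v := by rw [hVdef]; ring
          _ ≤ _ := h3
      exact le_of_mul_le_mul_left h4 hv0
    have e4 : c * (∫ t, wt δ T c m v τ t) ≤ c * V + V := by
      have h5 := (abs_le.mp hm).2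
      have h6' : c * (∫ t, wt δ T c m v τ t) ≤ c * (V + V / T) := mul_le_mul_of_nonneg_left (by linarith) hc0.le
      have hcT' : c ≤ T := by
        have h1 := Real.log_le_sub_one_of_pos hT0
        linarith
      have h7 : c * (V / T) ≤ V := by
        rw [mul_div_assoc', div_le_iff₀ hT0, mul_comm]
        exact mul_le_mul_of_nonneg_left hcT' hV0.le
      have h8' : c * (V + V / T) = c * V + c * (V / T) := by ring
      linarith
    have e5 : (c + 1 - (1 + 10 * δ) * √m + K) * V = c * V + V - (1 + 10 * δ) * √m * V + K * V := by ring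
    linarith
  have hDc : (1 + 10 * δ) * √m < c := by
    have h3 : (1 + 10 * δ) * √m ≤ 2 * √m := mul_le_mul_of_nonneg_right (by linarith) (by linarith)
    have h4 : √m ≤ √m ^ 2 := by nlinarith
    rw [hsm2] at h4
    linarith
  have hmain := few_core2 (X := XX T m) (Y := XX T c) (h := HH T c) (T := T) (c := c) (D := (1 + 10 * δ) * √m)
    (D' := √m) (Cs := 2 * Cs) (K := K) (V := V) hXm hXc hH0 (by
      have : 8 / XX T c ≤ 1 := by
        rw [div_le_one (by linarith)]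
        linarith
      linarith) hT16 (by linarith) (by linarith) hwc hwi hw0 hV1 hm (by positivity) hK0.le
    (fun u hu => by
      obtain ⟨g1, g2⟩ := h6 T c m v hT3' a3 hv c τ u hmc (by linarith) hτ1 hτ2 hu
      exact ⟨g1, g2.trans hKV1⟩)
    (fun u hu => by
      obtain ⟨g1, g2⟩ := h6 T c m v hT3' a3 hv (2 * c) τ u (by linarith) le_rfl hτ1 hτ2 hu
      rw [hX2] at g1 g2
      exact ⟨g1, g2.trans hKV1⟩)
    (fun u => by
      have g := h11 T c m v hT2' a2 hv c τ u hmc (by linarith)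
      refine g.trans ?_
      apply mul_le_mul_of_nonneg_right _ hV0.le
      apply mul_le_mul_of_nonneg_right _ hc0.le
      linarith)
    (fun u => by
      have g := h11 T c m v hT2' a2 hv (2 * c) τ u (by linarith) le_rfl
      rw [hX2] at g
      refine g.trans (le_of_eq ?_)
      ring)
    hJi hJ1 (fun t => hw (by linarith) hH0 t) (Helper24.UG.zc_meas _) (fun {_} hX => Helper24.UG.qk_mass hX)
    (by linarith) hDc (by
      have h3 : (1 + 10 * δ) * √m - √m = 10 * δ * √m := by ring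
      rw [h3]
      exact hδM.trans (mul_le_mul_of_nonneg_left hsm (by positivity)))
  exact hmain

end Pool.Agent.Helper82.UW
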